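import Mathlib

/-!
# Every digraph has a strong locally irregular arc colouring with seven colours

We prove `slir(D) ≤ 7` for every finite digraph `D`.
-/

open Finset

namespace Pool.Agent.Results.MP_0aaa8d_co.SevenColours

open Classical in
/-- The balanced degree `d⁺_B(v) - d⁻_B(v)` of `v` in the arc set `B`. -/
noncomputable def bal {V : Type} [Fintype V] (B : V → V → Prop) (v : V) : ℤ :=
  ((univ.filter (fun w => B v w)).card : ℤ) - ((univ.filter (fun w => B w v)).card : ℤ)

/-- The digraph with arc set `B` is strong locally irregular. -/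
def StrongLI {V : Type} [Fintype V] (B : V → V → Prop) : Prop :=
  ∀ u v, B u v → bal B u ≠ bal B v

/-- `c` is a strong locally irregular arc colouring with `k` colours of the digraph with arc set
`A`: for every colour `i`, the arcs of colour `i` form a strong locally irregular digraph. -/
def IsColouring {V : Type} [Fintype V] (A : V → V → Prop) (k : ℕ)
    (c : {p : V × V // A p.1 p.2} → Fin k) : Prop :=
  ∀ i : Fin k, StrongLI (fun u v => ∃ h : A u v, c ⟨(u, v), h⟩ = i)

/-- `slir`: the least number of colours of a strong locally irregular arc colouring. -/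
noncomputable def slir {V : Type} [Fintype V] (A : V → V → Prop) : ℕ :=
  sInf {k : ℕ | ∃ c : {p : V × V // A p.1 p.2} → Fin k, IsColouring A k c}

section Proof

open Classical

variable {V : Type} [Fintype V]

/-- total weight between `x` and the class `j` -/
noncomputable def dz {ι : Type} (w : V → V → ℤ) (f : V → ι) (x : V) (j : ι) : ℤ :=
  ∑ y, if f y = j then w x y else 0

/-- the potential -/
noncomputable def Phi {ι : Type} (w : V → V → ℤ) (U : V → ι → ℤ) (f : V → ι) : ℤ :=
  (∑ u, ∑ v, if f u = f v then w u v else 0) - ∑ u, U u (f u)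

lemma Phi_update {ι : Type} {w : V → V → ℤ} (hc : ∀ u v, w u v = w v u) (h0 : ∀ v, w v v = 0)
    (U : V → ι → ℤ) (f : V → ι) (x : V) (j : ι) :
    Phi w U (Function.update f x j) = (2 * dz w f x j - U x j) +
      ((∑ u ∈ univ.erase x, ∑ v ∈ univ.erase x, (if f u = f v then w u v else 0)) -
        ∑ u ∈ univ.erase x, U u (f u)) := by
  unfold Phi
  rw [← Finset.add_sum_erase univ _ (mem_univ x), ← Finset.add_sum_erase univ
    (fun u => U u (Function.update f x j u)) (mem_univ x)]
  have h1 : ∑ v, (if Function.update f x j x = Function.update f x j v then w x v else 0)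
      = dz w f x j := by
    unfold dz
    apply sum_congr rfl
    intro v _
    by_cases hv : v = x
    · subst hv
      simp [h0]
    · rw [Function.update_self, Function.update_of_ne hv]
      by_cases h : j = f v
      · rw [if_pos h, if_pos h.symm]
      · rw [if_neg h, if_neg (fun h' => h h'.symm)]
  have h2 : ∀ u ∈ univ.erase x,
      ∑ v, (if Function.update f x j u = Function.update f x j v then w u v else 0)
        = (if f u = j then w x u else 0) +
          ∑ v ∈ univ.erase x, (if f u = f v then w u v else 0) := by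
    intro u hu
    have hux : u ≠ x := ne_of_mem_erase hu
    rw [← Finset.add_sum_erase univ _ (mem_univ x)]
    congr 1
    · rw [Function.update_self, Function.update_of_ne hux, hc]
    · apply sum_congr rfl
      intro v hv
      rw [Function.update_of_ne hux, Function.update_of_ne (ne_of_mem_erase hv)]
  have h3 : ∑ u ∈ univ.erase x, (if f u = j then w x u else 0) = dz w f x j := by
    unfold dz
    rw [← Finset.add_sum_erase univ _ (mem_univ x)]
    simp [h0]
  have h4 : ∑ u ∈ univ.erase x, U u (Function.update f x j u) = ∑ u ∈ univ.erase x, U u (f u) := by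
    apply sum_congr rfl
    intro u hu
    rw [Function.update_of_ne (ne_of_mem_erase hu)]
  rw [h1, sum_congr rfl h2, sum_add_distrib, h3, h4, Function.update_self]
  ring

lemma exists_opt {ι : Type} [Finite ι] [Nonempty ι] {w : V → V → ℤ} (hc : ∀ u v, w u v = w v u)
    (h0 : ∀ v, w v v = 0) (U : V → ι → ℤ) :
    ∃ f : V → ι, ∀ x j, 2 * dz w f x (f x) - U x (f x) ≤ 2 * dz w f x j - U x j := by
  obtain ⟨f, hf⟩ := Finite.exists_min (fun f : V → ι => Phi w U f)
  refine ⟨f, fun x j => ?_⟩
  have h1 : Phi w U f ≤ Phi w U (Function.update f x j) := hf (Function.update f x j)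
  have h2 := Phi_update hc h0 U f x j
  have h3 := Phi_update hc h0 U f x (f x)
  rw [Function.update_eq_self] at h3
  omega

lemma greedy (adj : V → V → Prop) (b : V → ℤ) (lo n : V → ℕ)
    (hsymm : ∀ x y, adj x y → adj y x) (hirr : ∀ x, ¬ adj x x)
    (hcard : ∀ x, (univ.filter (fun y => adj x y)).card ≤ n x) :
    ∃ s : V → ℕ, (∀ x, lo x ≤ s x ∧ s x ≤ lo x + n x) ∧
      ∀ x y, adj x y → b x + (s x : ℤ) ≠ b y + (s y : ℤ) := by
  have key : ∀ S : Finset V, ∃ s : V → ℕ, (∀ x, lo x ≤ s x ∧ s x ≤ lo x + n x) ∧
      ∀ x ∈ S, ∀ y ∈ S, adj x y → b x + (s x : ℤ) ≠ b y + (s y : ℤ) := by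
    intro S
    induction S using Finset.induction_on with
    | empty => exact ⟨lo, fun x => ⟨le_rfl, by omega⟩, by simp⟩
    | insert a S ha ih =>
      obtain ⟨s, hs, hS⟩ := ih
      obtain ⟨t, ht, htn⟩ : ∃ t ∈ Finset.Icc (lo a) (lo a + n a),
          (b a + (t:ℤ)) ∉ (univ.filter (fun y => adj a y)).image (fun y => b y + (s y : ℤ)) := by
        by_contra hcon
        push Not at hcon
        have hsub : (Finset.Icc (lo a) (lo a + n a)).image (fun t : ℕ => b a + (t:ℤ)) ⊆
            (univ.filter (fun y => adj a y)).image (fun y => b y + (s y : ℤ)) := by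
          intro z hz
          obtain ⟨t, ht, rfl⟩ := mem_image.mp hz
          exact hcon t ht
        have h1 := card_le_card hsub
        rw [card_image_of_injective _ (by intro p q h; simpa using h)] at h1
        have h2 := card_image_le (s := univ.filter (fun y => adj a y))
          (f := fun y => b y + (s y:ℤ))
        have h3 := hcard a
        rw [Nat.card_Icc] at h1
        omega
      refine ⟨Function.update s a t, ?_, ?_⟩
      · intro x
        by_cases hx : x = a
        · subst hx
          rw [Function.update_self]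
          exact Finset.mem_Icc.mp ht
        · rw [Function.update_of_ne hx]
          exact hs x
      · intro x hx y hy hxy
        by_cases hxa : x = a
        · subst hxa
          have hya : y ≠ x := by
            rintro rfl
            exact hirr _ hxy
          rw [Function.update_self, Function.update_of_ne hya]
          intro he
          apply htn
          rw [mem_image]
          exact ⟨y, by simp [hxy], he.symm⟩
        · by_cases hya : y = a
          · subst hya
            rw [Function.update_self, Function.update_of_ne hxa]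
            intro he
            apply htn
            rw [mem_image]
            exact ⟨x, by simp [hsymm _ _ hxy], he⟩
          · rw [Function.update_of_ne hxa, Function.update_of_ne hya]
            exact hS x (mem_of_mem_insert_of_ne hx hxa) y (mem_of_mem_insert_of_ne hy hya) hxy
  obtain ⟨s, hs, h⟩ := key univ
  exact ⟨s, hs, fun x y => h x (mem_univ x) y (mem_univ y)⟩

/-- The structure of one colour class: core vertices of two signs (roles 0 and 1), tail vertices
(role 2) and head vertices (role 3). -/
lemma genClass (B Q I : V → V → Prop) (role : V → Fin 4) (T : V → Finset V) (s : V → ℕ)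
    (hB : ∀ u v, B u v → I u v ∨ ((role u = 2 ∨ role u = 0) ∧ (role v = 3 ∨ role v = 1) ∧
      ¬ (role u = 0 ∧ role v = 1)))
    (hI : ∀ u v, I u v → (role u = 0 ∧ role v = 0) ∨ (role u = 1 ∧ role v = 1))
    (h0out : ∀ x, role x = 0 → ∀ w, B x w ↔ (Q x w ∨ w ∈ T x))
    (h0dis : ∀ x, role x = 0 → ∀ w ∈ T x, ¬ Q x w)
    (h0in : ∀ x, role x = 0 → ∀ w, B w x ↔ Q w x)
    (h1in : ∀ x, role x = 1 → ∀ w, B w x ↔ (Q w x ∨ w ∈ T x))
    (h1dis : ∀ x, role x = 1 → ∀ w ∈ T x, ¬ Q w x)
    (h1out : ∀ x, role x = 1 → ∀ w, B x w ↔ Q x w)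
    (hs : ∀ x, (T x).card = s x)
    (hlo0 : ∀ x, role x = 0 → (univ.filter (fun w => Q w x)).card ≤ s x)
    (hlo1 : ∀ x, role x = 1 → (univ.filter (fun w => Q x w)).card ≤ s x)
    (hne0 : ∀ x y, I x y → role x = 0 → bal Q x + (s x : ℤ) ≠ bal Q y + (s y : ℤ))
    (hne1 : ∀ x y, I x y → role x = 1 → bal Q x - (s x : ℤ) ≠ bal Q y - (s y : ℤ)) :
    StrongLI B := by
  have n01 : (0 : Fin 4) ≠ 1 := by decide
  have n02 : (0 : Fin 4) ≠ 2 := by decide
  have n03 : (0 : Fin 4) ≠ 3 := by decide
  have n12 : (1 : Fin 4) ≠ 2 := by decide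
  have n13 : (1 : Fin 4) ≠ 3 := by decide
  have n23 : (2 : Fin 4) ≠ 3 := by decide
  have r0 : ∀ x, role x = 0 → bal B x = bal Q x + s x := by
    intro x hx
    unfold bal
    have h1 : univ.filter (fun w => B x w) = univ.filter (fun w => Q x w) ∪ T x := by
      ext w
      simp only [mem_filter, mem_univ, true_and, mem_union]
      exact h0out x hx w
    have h2 : Disjoint (univ.filter (fun w => Q x w)) (T x) := by
      rw [Finset.disjoint_left]
      intro w hw hwT
      exact h0dis x hx w hwT (by simpa using hw)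
    have h3 : univ.filter (fun w => B w x) = univ.filter (fun w => Q w x) := by
      ext w
      simp only [mem_filter, mem_univ, true_and]
      exact h0in x hx w
    rw [h1, card_union_of_disjoint h2, h3, hs x]
    push_cast
    ring
  have r1 : ∀ x, role x = 1 → bal B x = bal Q x - s x := by
    intro x hx
    unfold bal
    have h1 : univ.filter (fun w => B w x) = univ.filter (fun w => Q w x) ∪ T x := by
      ext w
      simp only [mem_filter, mem_univ, true_and, mem_union]
      exact h1in x hx w
    have h2 : Disjoint (univ.filter (fun w => Q w x)) (T x) := by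
      rw [Finset.disjoint_left]
      intro w hw hwT
      exact h1dis x hx w hwT (by simpa using hw)
    have h3 : univ.filter (fun w => B x w) = univ.filter (fun w => Q x w) := by
      ext w
      simp only [mem_filter, mem_univ, true_and]
      exact h1out x hx w
    rw [h1, card_union_of_disjoint h2, h3, hs x]
    push_cast
    ring
  have p0 : ∀ x, role x = 0 → 0 ≤ bal B x := by
    intro x hx
    rw [r0 x hx]
    unfold bal
    have := hlo0 x hx
    omega
  have p1 : ∀ x, role x = 1 → bal B x ≤ 0 := by
    intro x hx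
    rw [r1 x hx]
    unfold bal
    have := hlo1 x hx
    omega
  have p2 : ∀ x y, B x y → role x = 2 → 1 ≤ bal B x := by
    intro x y hxy hx
    unfold bal
    have e1 : univ.filter (fun w => B w x) = ∅ := by
      ext w
      simp only [mem_filter, mem_univ, true_and, notMem_empty, iff_false]
      intro hw
      rcases hB w x hw with h | ⟨_, h, _⟩
      · rcases hI w x h with h' | h'
        · exact n02 (h'.2.symm.trans hx)
        · exact n12 (h'.2.symm.trans hx)
      · rcases h with h | h
        · exact n23 (hx.symm.trans h)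
        · exact n12 (h.symm.trans hx)
    have e2 : 1 ≤ (univ.filter (fun w => B x w)).card := card_pos.mpr ⟨y, by simp [hxy]⟩
    rw [e1, card_empty]
    push_cast
    omega
  have p3 : ∀ x y, B y x → role x = 3 → bal B x ≤ -1 := by
    intro x y hxy hx
    unfold bal
    have e1 : univ.filter (fun w => B x w) = ∅ := by
      ext w
      simp only [mem_filter, mem_univ, true_and, notMem_empty, iff_false]
      intro hw
      rcases hB x w hw with h | ⟨h, _, _⟩
      · rcases hI x w h with h' | h'
        · exact n03 (h'.1.symm.trans hx)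
        · exact n13 (h'.1.symm.trans hx)
      · rcases h with h | h
        · exact n23 (h.symm.trans hx)
        · exact n03 (h.symm.trans hx)
    have e2 : 1 ≤ (univ.filter (fun w => B w x)).card := card_pos.mpr ⟨y, by simp [hxy]⟩
    rw [e1, card_empty]
    push_cast
    omega
  intro u v huv
  rcases hB u v huv with h | ⟨hu, hv, hn⟩
  · rcases hI u v h with ⟨h1, h2⟩ | ⟨h1, h2⟩
    · rw [r0 u h1, r0 v h2]
      exact hne0 u v h h1
    · rw [r1 u h1, r1 v h2]
      exact hne1 u v h h1
  · rcases hu with hu | hu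
    · have h1 := p2 u v huv hu
      rcases hv with hv | hv
      · have h2 := p3 v u huv hv
        omega
      · have h2 := p1 v hv
        omega
    · have h1 := p0 u hu
      rcases hv with hv | hv
      · have h2 := p3 v u huv hv
        omega
      · exact absurd ⟨hu, hv⟩ hn

end Proof

/-- the twelve cells: part, sign (`false` is plus, `true` is minus), copy -/
abbrev Cell : Type := Fin 3 × Bool × Bool

/-- index of a cell -/
def idx (a : Cell) : ℕ := 4 * a.1.val + (if a.2.1 then 2 else 0) + (if a.2.2 then 1 else 0)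

/-- the colour for which the cell is a core -/
def star (a : Cell) : Fin 7 :=
  ([0, 0, 2, 2, 4, 4, 3, 3, 1, 1, 6, 6] : List (Fin 7)).getD (idx a) 0

/-- for the other colours, whether the cell consists of tails (`true`) or of heads (`false`) -/
def tl (a : Cell) (k : Fin 7) : Bool :=
  (([84, 100, 112, 88, 44, 14, 38, 70, 9, 104, 41, 13] : List ℕ).getD (idx a) 0).testBit k.val

lemma exists_cut : ∀ a b : Cell, a ≠ b → ∃ k : Fin 7,
    ((star a ≠ k ∧ tl a k = true) ∨ (star a = k ∧ a.2.1 = false)) ∧
    ((star b ≠ k ∧ tl b k = false) ∨ (star b = k ∧ b.2.1 = true)) ∧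
    ¬ (star a = k ∧ star b = k) ∧
    (((b.1 = a.1 + 1 ∧ a.2.1 = false) ∨ (a.1 = b.1 + 1 ∧ b.2.1 = true)) →
      star a ≠ k ∧ star b ≠ k) := by
  decide +kernel

lemma own_plus : ∀ a b : Cell, b.1 = a.1 + 1 → a.2.1 = false →
    star b ≠ star a ∧ tl b (star a) = false := by
  decide +kernel

lemma own_minus : ∀ a b : Cell, b.1 = a.1 + 1 → a.2.1 = true →
    star b ≠ star a ∧ tl b (star a) = true := by
  decide +kernel

lemma fin3_ne : ∀ i : Fin 3, i + 1 ≠ i := by decide

lemma fin3_ne2 : ∀ i : Fin 3, i + 1 + 1 ≠ i := by decide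

section Main

open Classical

variable {V : Type} [Fintype V]

/-- number of arcs between two vertices -/
noncomputable def wt (A : V → V → Prop) (u v : V) : ℤ :=
  (if A u v then 1 else 0) + (if A v u then 1 else 0)

omit [Fintype V] in
lemma wt_self {A : V → V → Prop} (hA : ∀ v, ¬ A v v) (v : V) : wt A v v = 0 := by
  simp [wt, hA]

omit [Fintype V] in
lemma wt_comm (A : V → V → Prop) (u v : V) : wt A u v = wt A v u := by
  unfold wt; ring

/-- number of arcs from `x` to the next part -/
noncomputable def FF (A : V → V → Prop) (f : V → Fin 3) (x : V) : ℕ :=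
  (univ.filter (fun y => A x y ∧ f y = f x + 1)).card

/-- number of arcs into `x` from the next part -/
noncomputable def GG (A : V → V → Prop) (f : V → Fin 3) (x : V) : ℕ :=
  (univ.filter (fun y => A y x ∧ f y = f x + 1)).card

/-- number of arcs into `x` from its own cell -/
noncomputable def inC (A : V → V → Prop) (cell : V → Cell) (x : V) : ℕ :=
  (univ.filter (fun y => A y x ∧ cell y = cell x)).card

/-- number of arcs from `x` to its own cell -/
noncomputable def outC (A : V → V → Prop) (cell : V → Cell) (x : V) : ℕ :=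
  (univ.filter (fun y => A x y ∧ cell y = cell x)).card

lemma dz_filter (A : V → V → Prop) (f : V → Fin 3) (x : V) :
    dz (wt A) f x (f x + 1) = (FF A f x : ℤ) + (GG A f x : ℤ) := by
  unfold dz wt FF GG
  rw [card_filter, card_filter]
  push_cast
  rw [← sum_add_distrib]
  apply sum_congr rfl
  intro y _
  by_cases h : f y = f x + 1 <;> by_cases h1 : A x y <;> by_cases h2 : A y x <;> simp [h, h1, h2]

lemma exists_cells (A : V → V → Prop) (hA : ∀ v, ¬ A v v) :
    ∃ (f : V → Fin 3) (τ : V → Bool × Bool), ∀ x,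
      ((τ x).1 = false →
        2 * (inC A (fun y => (f y, τ y)) x + outC A (fun y => (f y, τ y)) x) ≤ FF A f x) ∧
      ((τ x).1 = true →
        2 * (inC A (fun y => (f y, τ y)) x + outC A (fun y => (f y, τ y)) x) ≤ GG A f x) := by
  obtain ⟨f, hf⟩ := exists_opt (ι := Fin 3) (w := wt A) (wt_comm A) (wt_self hA) (fun _ _ => 0)
  obtain ⟨w2, hw2⟩ : ∃ w2 : V → V → ℤ, ∀ u v, w2 u v = if f u = f v then wt A u v else 0 :=
    ⟨_, fun _ _ => rfl⟩
  obtain ⟨τ, hτ⟩ := exists_opt (ι := Bool × Bool) (w := w2)
    (by
      intro u v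
      rw [hw2, hw2, wt_comm]
      by_cases h : f u = f v
      · rw [if_pos h, if_pos h.symm]
      · rw [if_neg h, if_neg (fun h' => h h'.symm)])
    (by
      intro v
      rw [hw2, if_pos rfl, wt_self hA])
    (fun x j => if j.1 = false then (FF A f x : ℤ) else (GG A f x : ℤ))
  refine ⟨f, τ, fun x => ?_⟩
  have h00 := hτ x (false, false)
  have h01 := hτ x (false, true)
  have h10 := hτ x (true, false)
  have h11 := hτ x (true, true)
  have hsum : dz w2 τ x (false, false) + dz w2 τ x (false, true) + dz w2 τ x (true, false) +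
      dz w2 τ x (true, true) = dz (wt A) f x (f x) := by
    unfold dz
    rw [← sum_add_distrib, ← sum_add_distrib, ← sum_add_distrib]
    apply sum_congr rfl
    intro y _
    rw [hw2]
    obtain ⟨b1, b2⟩ := τ y
    by_cases h : f y = f x
    · have h' : f x = f y := h.symm
      cases b1 <;> cases b2 <;> simp [h']
    · have h' : ¬ (f x = f y) := fun e => h e.symm
      simp [h, h']
  have hn : dz w2 τ x (τ x) =
      (inC A (fun y => (f y, τ y)) x : ℤ) + (outC A (fun y => (f y, τ y)) x : ℤ) := by
    unfold dz inC outC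
    rw [card_filter, card_filter]
    push_cast
    rw [← sum_add_distrib]
    apply sum_congr rfl
    intro y _
    rw [hw2]
    unfold wt
    by_cases h : τ y = τ x
    · by_cases h' : f y = f x
      · by_cases h1 : A x y <;> by_cases h2 : A y x <;> simp [h, h', h1, h2]
      · have h'' : ¬ (f x = f y) := fun e => h' e.symm
        simp [h, h', h'']
    · simp [h]
  have h1 := hf x (f x + 1)
  rw [dz_filter] at h1
  simp only [if_true, if_false, Bool.true_eq_false] at h00 h01 h10 h11
  rw [hn] at h00 h01 h10 h11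
  constructor
  · intro hp
    rw [if_pos hp] at h00 h01 h10 h11
    omega
  · intro hp
    have hp' : ¬ ((τ x).1 = false) := by
      rw [hp]
      decide
    rw [if_neg hp'] at h00 h01 h10 h11
    omega

lemma main_colouring (A : V → V → Prop) (hA : ∀ v, ¬ A v v) :
    ∃ c : V → V → Fin 7, ∀ k, StrongLI (fun u v => A u v ∧ c u v = k) := by
  obtain ⟨f, τ, hfτ⟩ := exists_cells A hA
  obtain ⟨cell, hcell⟩ : ∃ cell : V → Cell, cell = fun y => (f y, τ y) := ⟨_, rfl⟩
  rw [← hcell] at hfτ
  have hcf : ∀ x, (cell x).1 = f x := fun x => by rw [hcell]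
  have hct : ∀ x, (cell x).2 = τ x := fun x => by rw [hcell]
  choose cut hcut using exists_cut
  obtain ⟨E, hE⟩ : ∃ E : V → V → Prop, ∀ u v, E u v ↔ (A u v ∧ cell u = cell v) :=
    ⟨_, fun _ _ => Iff.rfl⟩
  obtain ⟨ct, hctd⟩ : ∃ ct : V → V → Fin 7, ∀ u v (h : cell u ≠ cell v),
      ct u v = cut (cell u) (cell v) h :=
    ⟨fun u v => if h : cell u ≠ cell v then cut (cell u) (cell v) h else 0,
      fun u v h => dif_pos h⟩
  obtain ⟨Q, hQ⟩ : ∃ Q : Fin 7 → V → V → Prop, ∀ k u v, Q k u v ↔
      (A u v ∧ ((cell u = cell v ∧ star (cell u) = k) ∨ (cell u ≠ cell v ∧ ct u v = k))) :=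
    ⟨_, fun _ _ _ => Iff.rfl⟩
  have hinE : ∀ x, (univ.filter (fun w => E w x)).card = inC A cell x := by
    intro x
    unfold inC
    congr 1
    ext w
    simp only [mem_filter, mem_univ, true_and, hE]
  have houtE : ∀ x, (univ.filter (fun w => E x w)).card = outC A cell x := by
    intro x
    unfold outC
    congr 1
    ext w
    simp only [mem_filter, mem_univ, true_and, hE]
    exact ⟨fun h => ⟨h.1, h.2.symm⟩, fun h => ⟨h.1, h.2.symm⟩⟩
  obtain ⟨b, hb⟩ : ∃ b : V → ℤ, ∀ x, b x = if (τ x).1 = false then bal (Q (star (cell x))) x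
      else - bal (Q (star (cell x))) x := ⟨_, fun _ => rfl⟩
  obtain ⟨adj, hadj⟩ : ∃ adj : V → V → Prop, ∀ x y, adj x y ↔ (E x y ∨ E y x) :=
    ⟨_, fun _ _ => Iff.rfl⟩
  obtain ⟨s, hs, hsne⟩ := greedy adj b (fun x => inC A cell x + outC A cell x)
    (fun x => inC A cell x + outC A cell x)
    (by
      intro x y
      rw [hadj, hadj]
      rintro (h | h)
      · exact Or.inr h
      · exact Or.inl h)
    (by
      intro x
      rw [hadj]
      rintro (h | h) <;> exact hA x ((hE x x).mp h).1)
    (by
      intro x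
      rw [← hinE, ← houtE]
      have hsub : univ.filter (fun y => adj x y) ⊆
          univ.filter (fun y => E y x) ∪ univ.filter (fun y => E x y) := by
        intro y
        simp only [mem_filter, mem_union, mem_univ, true_and, hadj]
        rintro (h | h)
        · exact Or.inr h
        · exact Or.inl h
      exact (card_le_card hsub).trans (card_union_le _ _))
  have hT0 : ∀ x, ∃ T : Finset V, T.card = s x ∧ ∀ w ∈ T, f w = f x + 1 ∧
      ((τ x).1 = false → A x w) ∧ ((τ x).1 = true → A w x) := by
    intro x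
    have h1 := (hs x).2
    cases hp : (τ x).1 with
    | false =>
      have h2 := (hfτ x).1 hp
      have h4 : s x ≤ (univ.filter (fun y => A x y ∧ f y = f x + 1)).card := by
        change s x ≤ FF A f x
        omega
      obtain ⟨T, hT, hc⟩ := exists_subset_card_eq h4
      refine ⟨T, hc, fun w hw => ?_⟩
      have h5 := mem_filter.mp (hT hw)
      exact ⟨h5.2.2, fun _ => h5.2.1, fun h => absurd h (by decide)⟩
    | true =>
      have h2 := (hfτ x).2 hp
      have h4 : s x ≤ (univ.filter (fun y => A y x ∧ f y = f x + 1)).card := by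
        change s x ≤ GG A f x
        omega
      obtain ⟨T, hT, hc⟩ := exists_subset_card_eq h4
      refine ⟨T, hc, fun w hw => ?_⟩
      have h5 := mem_filter.mp (hT hw)
      exact ⟨h5.2.2, fun h => absurd h (by decide), fun _ => h5.2.1⟩
  choose T hTc hT using hT0
  have hTcell : ∀ x, ∀ w ∈ T x, (cell w).1 = (cell x).1 + 1 := by
    intro x w hw
    rw [hcf, hcf]
    exact (hT x w hw).1
  have hTne : ∀ x, ∀ w ∈ T x, cell x ≠ cell w := by
    intro x w hw h
    have h1 := hTcell x w hw
    rw [h] at h1
    exact fin3_ne _ h1.symm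
  -- properties of the cut colours
  have ctP : ∀ u v, cell u ≠ cell v →
      ((star (cell u) ≠ ct u v ∧ tl (cell u) (ct u v) = true) ∨
        (star (cell u) = ct u v ∧ (τ u).1 = false)) ∧
      ((star (cell v) ≠ ct u v ∧ tl (cell v) (ct u v) = false) ∨
        (star (cell v) = ct u v ∧ (τ v).1 = true)) ∧
      ¬ (star (cell u) = ct u v ∧ star (cell v) = ct u v) ∧
      ((((cell v).1 = (cell u).1 + 1 ∧ (τ u).1 = false) ∨
        ((cell u).1 = (cell v).1 + 1 ∧ (τ v).1 = true)) →
        star (cell u) ≠ ct u v ∧ star (cell v) ≠ ct u v) := by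
    intro u v h
    have h1 := hcut (cell u) (cell v) h
    rw [← hctd u v h] at h1
    rw [hct, hct] at h1
    exact h1
  obtain ⟨c, hc⟩ : ∃ c : V → V → Fin 7, ∀ u v, c u v =
      if cell u = cell v then star (cell u)
      else if (τ u).1 = false ∧ v ∈ T u then star (cell u)
      else if (τ v).1 = true ∧ u ∈ T v then star (cell v)
      else ct u v :=
    ⟨_, fun _ _ => rfl⟩
  refine ⟨c, fun k => ?_⟩
  obtain ⟨role, hrole⟩ : ∃ role : V → Fin 4, ∀ x, role x =
      if star (cell x) = k then (if (τ x).1 = false then 0 else 1)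
      else if tl (cell x) k = true then 2 else 3 := ⟨_, fun _ => rfl⟩
  have role0 : ∀ x, role x = 0 → star (cell x) = k ∧ (τ x).1 = false := by
    intro x hx
    rw [hrole x] at hx
    by_cases h1 : star (cell x) = k
    · refine ⟨h1, ?_⟩
      rw [if_pos h1] at hx
      by_contra h2
      rw [if_neg h2] at hx
      exact absurd hx (by decide)
    · rw [if_neg h1] at hx
      by_cases h2 : tl (cell x) k = true
      · rw [if_pos h2] at hx
        exact absurd hx (by decide)
      · rw [if_neg h2] at hx
        exact absurd hx (by decide)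
  have role1 : ∀ x, role x = 1 → star (cell x) = k ∧ (τ x).1 = true := by
    intro x hx
    rw [hrole x] at hx
    by_cases h1 : star (cell x) = k
    · refine ⟨h1, ?_⟩
      rw [if_pos h1] at hx
      by_cases h2 : (τ x).1 = false
      · rw [if_pos h2] at hx
        exact absurd hx (by decide)
      · exact Bool.eq_true_of_not_eq_false h2
    · rw [if_neg h1] at hx
      by_cases h2 : tl (cell x) k = true
      · rw [if_pos h2] at hx
        exact absurd hx (by decide)
      · rw [if_neg h2] at hx
        exact absurd hx (by decide)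
  have mk0 : ∀ x, star (cell x) = k → (τ x).1 = false → role x = 0 := by
    intro x h1 h2
    rw [hrole x, if_pos h1, if_pos h2]
  have mk1 : ∀ x, star (cell x) = k → (τ x).1 = true → role x = 1 := by
    intro x h1 h2
    rw [hrole x, if_pos h1, if_neg (by rw [h2]; decide)]
  have mk2 : ∀ x, star (cell x) ≠ k → tl (cell x) k = true → role x = 2 := by
    intro x h1 h2
    rw [hrole x, if_neg h1, if_pos h2]
  have mk3 : ∀ x, star (cell x) ≠ k → tl (cell x) k = false → role x = 3 := by
    intro x h1 h2
    rw [hrole x, if_neg h1, if_neg (by rw [h2]; decide)]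
  -- the owned arcs
  have plusT : ∀ x, (τ x).1 = false → ∀ w ∈ T x,
      star (cell w) ≠ star (cell x) ∧ tl (cell w) (star (cell x)) = false := by
    intro x h2 w hw
    exact own_plus (cell x) (cell w) (hTcell x w hw) (by rw [hct]; exact h2)
  have minusT : ∀ x, (τ x).1 = true → ∀ w ∈ T x,
      star (cell w) ≠ star (cell x) ∧ tl (cell w) (star (cell x)) = true := by
    intro x h2 w hw
    exact own_minus (cell x) (cell w) (hTcell x w hw) (by rw [hct]; exact h2)
  have neutralP : ∀ x, (τ x).1 = false → ∀ w ∈ T x,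
      star (cell x) ≠ ct x w ∧ star (cell w) ≠ ct x w := by
    intro x h2 w hw
    exact (ctP x w (hTne x w hw)).2.2.2 (Or.inl ⟨hTcell x w hw, h2⟩)
  have neutralM : ∀ x, (τ x).1 = true → ∀ w ∈ T x,
      star (cell w) ≠ ct w x ∧ star (cell x) ≠ ct w x := by
    intro x h2 w hw
    exact (ctP w x (fun e => hTne x w hw e.symm)).2.2.2 (Or.inr ⟨hTcell x w hw, h2⟩)
  -- arcs whose cut colour is the core colour of an end are coloured by it
  have cEq : ∀ u v, cell u ≠ cell v → (star (cell u) = ct u v ∨ star (cell v) = ct u v) →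
      c u v = ct u v := by
    intro u v h1 h2
    rw [hc, if_neg h1, if_neg, if_neg]
    · rintro ⟨h3, h4⟩
      have h5 := neutralM v h3 u h4
      rcases h2 with h2 | h2
      · exact h5.1 h2
      · exact h5.2 h2
    · rintro ⟨h3, h4⟩
      have h5 := neutralP u h3 v h4
      rcases h2 with h2 | h2
      · exact h5.1 h2
      · exact h5.2 h2
  obtain ⟨I, hI⟩ : ∃ I : V → V → Prop, ∀ u v, I u v ↔ (E u v ∧ star (cell u) = k) :=
    ⟨_, fun _ _ => Iff.rfl⟩
  refine genClass _ (Q k) I role T s ?_ ?_ ?_ ?_ ?_ ?_ ?_ ?_ hTc ?_ ?_ ?_ ?_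
  · rintro u v ⟨hA1, h⟩
    rw [hc] at h
    by_cases h1 : cell u = cell v
    · rw [if_pos h1] at h
      exact Or.inl ((hI u v).mpr ⟨(hE u v).mpr ⟨hA1, h1⟩, h⟩)
    · rw [if_neg h1] at h
      right
      by_cases h2 : (τ u).1 = false ∧ v ∈ T u
      · rw [if_pos h2] at h
        have h3 := plusT u h2.1 v h2.2
        rw [h] at h3
        have h4 := mk0 u h h2.1
        have h5 := mk3 v h3.1 h3.2
        refine ⟨Or.inr h4, Or.inl h5, ?_⟩
        rintro ⟨_, h6⟩
        rw [h5] at h6
        exact absurd h6 (by decide)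
      · rw [if_neg h2] at h
        by_cases h3 : (τ v).1 = true ∧ u ∈ T v
        · rw [if_pos h3] at h
          have h4 := minusT v h3.1 u h3.2
          rw [h] at h4
          have h5 := mk1 v h h3.1
          have h6 := mk2 u h4.1 h4.2
          refine ⟨Or.inl h6, Or.inr h5, ?_⟩
          rintro ⟨h7, _⟩
          rw [h6] at h7
          exact absurd h7 (by decide)
        · rw [if_neg h3] at h
          have h4 := ctP u v h1
          rw [h] at h4
          obtain ⟨h5, h6, h7, _⟩ := h4
          refine ⟨?_, ?_, ?_⟩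
          · rcases h5 with h5 | h5
            · exact Or.inl (mk2 u h5.1 h5.2)
            · exact Or.inr (mk0 u h5.1 h5.2)
          · rcases h6 with h6 | h6
            · exact Or.inl (mk3 v h6.1 h6.2)
            · exact Or.inr (mk1 v h6.1 h6.2)
          · rintro ⟨h8, h9⟩
            exact h7 ⟨(role0 u h8).1, (role1 v h9).1⟩
  · intro u v h
    obtain ⟨h1, h2⟩ := (hI u v).mp h
    have h3 := ((hE u v).mp h1).2
    have h4 : τ u = τ v := by rw [← hct, ← hct, h3]
    cases hp : (τ u).1 with
    | false => exact Or.inl ⟨mk0 u h2 hp, mk0 v (by rw [← h3]; exact h2) (by rw [← h4]; exact hp)⟩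
    | true => exact Or.inr ⟨mk1 u h2 hp, mk1 v (by rw [← h3]; exact h2) (by rw [← h4]; exact hp)⟩
  · -- h0out
    intro x hx w
    obtain ⟨h1, h2⟩ := role0 x hx
    show (A x w ∧ c x w = k) ↔ _
    constructor
    · rintro ⟨hA1, h⟩
      rw [hc] at h
      by_cases h3 : cell x = cell w
      · exact Or.inl ((hQ k x w).mpr ⟨hA1, Or.inl ⟨h3, h1⟩⟩)
      · rw [if_neg h3] at h
        by_cases h4 : (τ x).1 = false ∧ w ∈ T x
        · exact Or.inr h4.2
        · rw [if_neg h4] at h
          by_cases h5 : (τ w).1 = true ∧ x ∈ T w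
          · rw [if_pos h5] at h
            exact absurd (h1.trans h.symm) (minusT w h5.1 x h5.2).1
          · rw [if_neg h5] at h
            exact Or.inl ((hQ k x w).mpr ⟨hA1, Or.inr ⟨h3, h⟩⟩)
    · rintro (h | h)
      · obtain ⟨hA1, h3⟩ := (hQ k x w).mp h
        refine ⟨hA1, ?_⟩
        rcases h3 with ⟨h4, h5⟩ | ⟨h4, h5⟩
        · rw [hc, if_pos h4]
          exact h5
        · rw [cEq x w h4 (Or.inl (h1.trans h5.symm))]
          exact h5
      · refine ⟨(hT x w h).2.1 h2, ?_⟩
        rw [hc, if_neg (hTne x w h), if_pos ⟨h2, h⟩]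
        exact h1
  · -- h0dis
    intro x hx w hw hq
    obtain ⟨h1, h2⟩ := role0 x hx
    rcases ((hQ k x w).mp hq).2 with ⟨h4, _⟩ | ⟨_, h5⟩
    · exact hTne x w hw h4
    · exact (neutralP x h2 w hw).1 (h1.trans h5.symm)
  · -- h0in
    intro x hx w
    obtain ⟨h1, h2⟩ := role0 x hx
    show (A w x ∧ c w x = k) ↔ _
    constructor
    · rintro ⟨hA1, h⟩
      rw [hc] at h
      by_cases h3 : cell w = cell x
      · exact (hQ k w x).mpr ⟨hA1, Or.inl ⟨h3, by rw [h3]; exact h1⟩⟩
      · rw [if_neg h3] at h
        by_cases h4 : (τ w).1 = false ∧ x ∈ T w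
        · rw [if_pos h4] at h
          exact absurd (h1.trans h.symm) (plusT w h4.1 x h4.2).1
        · rw [if_neg h4] at h
          by_cases h5 : (τ x).1 = true ∧ w ∈ T x
          · rw [h2] at h5
            exact absurd h5.1 (by decide)
          · rw [if_neg h5] at h
            exact (hQ k w x).mpr ⟨hA1, Or.inr ⟨h3, h⟩⟩
    · intro h
      obtain ⟨hA1, h3⟩ := (hQ k w x).mp h
      refine ⟨hA1, ?_⟩
      rcases h3 with ⟨h4, h5⟩ | ⟨h4, h5⟩
      · rw [hc, if_pos h4]
        exact h5
      · rw [cEq w x h4 (Or.inr (h1.trans h5.symm))]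
        exact h5
  · -- h1in
    intro x hx w
    obtain ⟨h1, h2⟩ := role1 x hx
    show (A w x ∧ c w x = k) ↔ _
    constructor
    · rintro ⟨hA1, h⟩
      rw [hc] at h
      by_cases h3 : cell w = cell x
      · exact Or.inl ((hQ k w x).mpr ⟨hA1, Or.inl ⟨h3, by rw [h3]; exact h1⟩⟩)
      · rw [if_neg h3] at h
        by_cases h4 : (τ w).1 = false ∧ x ∈ T w
        · rw [if_pos h4] at h
          exact absurd (h1.trans h.symm) (plusT w h4.1 x h4.2).1
        · rw [if_neg h4] at h
          by_cases h5 : (τ x).1 = true ∧ w ∈ T x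
          · exact Or.inr h5.2
          · rw [if_neg h5] at h
            exact Or.inl ((hQ k w x).mpr ⟨hA1, Or.inr ⟨h3, h⟩⟩)
    · rintro (h | h)
      · obtain ⟨hA1, h3⟩ := (hQ k w x).mp h
        refine ⟨hA1, ?_⟩
        rcases h3 with ⟨h4, h5⟩ | ⟨h4, h5⟩
        · rw [hc, if_pos h4]
          exact h5
        · rw [cEq w x h4 (Or.inr (h1.trans h5.symm))]
          exact h5
      · refine ⟨(hT x w h).2.2 h2, ?_⟩
        rw [hc, if_neg (fun e => hTne x w h e.symm), if_neg, if_pos ⟨h2, h⟩]
        · exact h1
        · rintro ⟨_, h4⟩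
          have h5 := hTcell w x h4
          rw [hTcell x w h] at h5
          exact fin3_ne2 _ h5.symm
  · -- h1dis
    intro x hx w hw hq
    obtain ⟨h1, h2⟩ := role1 x hx
    rcases ((hQ k w x).mp hq).2 with ⟨h4, _⟩ | ⟨_, h5⟩
    · exact hTne x w hw h4.symm
    · exact (neutralM x h2 w hw).2 (h1.trans h5.symm)
  · -- h1out
    intro x hx w
    obtain ⟨h1, h2⟩ := role1 x hx
    show (A x w ∧ c x w = k) ↔ _
    constructor
    · rintro ⟨hA1, h⟩
      rw [hc] at h
      by_cases h3 : cell x = cell w
      · exact (hQ k x w).mpr ⟨hA1, Or.inl ⟨h3, h1⟩⟩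
      · rw [if_neg h3] at h
        by_cases h4 : (τ x).1 = false ∧ w ∈ T x
        · rw [h2] at h4
          exact absurd h4.1 (by decide)
        · rw [if_neg h4] at h
          by_cases h5 : (τ w).1 = true ∧ x ∈ T w
          · rw [if_pos h5] at h
            exact absurd (h1.trans h.symm) (minusT w h5.1 x h5.2).1
          · rw [if_neg h5] at h
            exact (hQ k x w).mpr ⟨hA1, Or.inr ⟨h3, h⟩⟩
    · intro h
      obtain ⟨hA1, h3⟩ := (hQ k x w).mp h
      refine ⟨hA1, ?_⟩
      rcases h3 with ⟨h4, h5⟩ | ⟨h4, h5⟩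
      · rw [hc, if_pos h4]
        exact h5
      · rw [cEq x w h4 (Or.inl (h1.trans h5.symm))]
        exact h5
  · -- hlo0
    intro x hx
    obtain ⟨hx1, hx2⟩ := role0 x hx
    have h1 := (hs x).1
    refine le_trans (card_le_card (t := univ.filter (fun w => E w x)) ?_) ?_
    · intro w
      simp only [mem_filter, mem_univ, true_and]
      intro hq
      obtain ⟨hA1, h3⟩ := (hQ k w x).mp hq
      rcases h3 with ⟨h4, _⟩ | ⟨h4, h5⟩
      · exact (hE w x).mpr ⟨hA1, h4⟩
      · exfalso
        rcases (ctP w x h4).2.1 with h6 | h6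
        · exact h6.1 (hx1.trans h5.symm)
        · rw [hx2] at h6
          exact absurd h6.2 (by decide)
    · rw [hinE]
      omega
  · -- hlo1
    intro x hx
    obtain ⟨hx1, hx2⟩ := role1 x hx
    have h1 := (hs x).1
    refine le_trans (card_le_card (t := univ.filter (fun w => E x w)) ?_) ?_
    · intro w
      simp only [mem_filter, mem_univ, true_and]
      intro hq
      obtain ⟨hA1, h3⟩ := (hQ k x w).mp hq
      rcases h3 with ⟨h4, _⟩ | ⟨h4, h5⟩
      · exact (hE x w).mpr ⟨hA1, h4⟩
      · exfalso
        rcases (ctP x w h4).1 with h6 | h6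
        · exact h6.1 (hx1.trans h5.symm)
        · rw [hx2] at h6
          exact absurd h6.2 (by decide)
    · rw [houtE]
      omega
  · intro x y hxy hx
    obtain ⟨h1, h2⟩ := (hI x y).mp hxy
    have h3 := ((hE x y).mp h1).2
    have h4 : τ x = τ y := by rw [← hct, ← hct, h3]
    have h5 := (role0 x hx).2
    have h6 := hsne x y ((hadj x y).mpr (Or.inl h1))
    rw [hb x, hb y, if_pos h5, if_pos (by rw [← h4]; exact h5), ← h3, h2] at h6
    exact h6
  · intro x y hxy hx
    obtain ⟨h1, h2⟩ := (hI x y).mp hxy
    have h3 := ((hE x y).mp h1).2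
    have h4 : τ x = τ y := by rw [← hct, ← hct, h3]
    have h5 : ¬ ((τ x).1 = false) := by
      rw [(role1 x hx).2]
      decide
    have h6 := hsne x y ((hadj x y).mpr (Or.inl h1))
    rw [hb x, hb y, if_neg h5, if_neg (by rw [← h4]; exact h5), ← h3, h2] at h6
    intro h7
    apply h6
    omega

lemma hasColouring (A : V → V → Prop) (hA : ∀ v, ¬ A v v) :
    ∃ c : {p : V × V // A p.1 p.2} → Fin 7, IsColouring A 7 c := by
  obtain ⟨c, hc⟩ := main_colouring A hA
  refine ⟨fun p => c p.1.1 p.1.2, ?_⟩
  intro i
  have h1 : (fun u v => ∃ _ : A u v, c u v = i) = (fun u v => A u v ∧ c u v = i) := by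
    funext u v
    apply propext
    exact ⟨fun ⟨h, h2⟩ => ⟨h, h2⟩, fun ⟨h, h2⟩ => ⟨h, h2⟩⟩
  have h2 := hc i
  rw [← h1] at h2
  exact h2

end Main

/-- Every finite digraph has a strong locally irregular arc colouring with 7 colours. -/
theorem result : ∀ (V : Type) [Fintype V] (A : V → V → Prop), (∀ v, ¬ A v v) →
    (∃ c : {p : V × V // A p.1 p.2} → Fin 7, IsColouring A 7 c) ∧ slir A ≤ 7 := by
  intro V _ A hA
  exact ⟨hasColouring A hA, Nat.sInf_le (hasColouring A hA)⟩

end Pool.Agent.Results.MP_0aaa8d_co.SevenColours
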